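import Pool.Agent.L0h75.H1.Def
import Pool.Agent.L0h23.ED.Stm

/-!
# H1: statements in the ring `RR`
-/

set_option autoImplicit false

namespace Pool.Agent.L0h75.H1

open Pool.Agent.Y698 Pool.Agent.Y698.SG Pool.Agent.L0h4.TW
open Pool.Agent.L0h23.ED (kn kl kb k7 NS3 NSE S_R2)

/-- zero or one -/
def b2 (s : Bool) : ZMod 2 := if s then 1 else 0

/-- the first factor of a class -/
noncomputable def gg (s e y z : Bool) : RR :=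
  (if s then -1 else 1) * (if e then -fR else 1) * (if y then aR else 1) *
    (if z then aR - 1 else 1)

/-- the sign: `κ = ± 1` or `± 2` -/
def Kap (κ : RR) (ε : ZMod 2) : Prop :=
  (ε = 0 ∧ (κ = 1 ∨ κ = 2)) ∨ (ε = 1 ∧ (κ = -1 ∨ κ = -2))

/-- the number `m` -/
noncomputable def mK (Q S : Finset ℕ) (ϖ : ℕ → RR) (κ : RR) : RR :=
  -fR * (κ * ∏ i ∈ ix Q S, pfx Q ϖ i)

/-- FAC: factorization of the classes -/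
def S_FAC : Prop := ∀ (Q S : Finset ℕ) (ϖ : ℕ → RR), Dt Q S ϖ → ∀ (κ δ : RR) (ε : ZMod 2),
  Kap κ ε → Odd' (mK Q S ϖ κ) δ → ∃ (s e y z : Bool) (T : Finset (ℕ × Bool)), T ⊆ ix Q S ∧
    δ = gg s e y z * ∏ i ∈ T, pfx Q ϖ i

/-- EQJ: the equations at the odd places prime to seven -/
def S_EQJ : Prop := S_R2 → ∀ (Q S : Finset ℕ) (ϖ : ℕ → RR), Dt Q S ϖ → ∀ (κ : RR) (ε : ZMod 2),
  Kap κ ε → ∀ (s e y z : Bool) (T : Finset (ℕ × Bool)), T ⊆ ix Q S →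
    Odd' (mK Q S ϖ κ) (gg s e y z * ∏ i ∈ T, pfx Q ϖ i) → ∀ j ∈ ix Q S,
    b2 s * kn (pfx Q ϖ) j + b2 z * kb (pfx Q ϖ) j + b2 e * k7 (pfx Q ϖ) j +
      b2 y * lg (sy (pfx Q ϖ j) aR) +
      ∑ i ∈ (ix Q S).erase j, mr (pfx Q ϖ) i j * (if i ∈ T then 1 else 0) +
      (if j ∈ T then 1 else 0) * (lg (sy (pfx Q ϖ j) κ) + k7 (pfx Q ϖ) j +
        ∑ i ∈ (ix Q S).erase j, mr (pfx Q ϖ) i j) = 0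

/-- EQ7: the equation at `√-7` -/
def S_EQ7 : Prop := ∀ (Q S : Finset ℕ) (ϖ : ℕ → RR), Dt Q S ϖ → ∀ (κ : RR) (ε : ZMod 2),
  Kap κ ε → ∀ (s e y z : Bool) (T : Finset (ℕ × Bool)), T ⊆ ix Q S →
    Odd' (mK Q S ϖ κ) (gg s e y z * ∏ i ∈ T, pfx Q ϖ i) →
    b2 s + b2 z + ∑ i ∈ T, (k7 (pfx Q ϖ) i + kn (pfx Q ϖ) i) +
      b2 e * (ε + ∑ i ∈ ix Q S, (k7 (pfx Q ϖ) i + kn (pfx Q ϖ) i)) = 0

/-- SUM: the sum of the equations EQJ, by the reciprocity law -/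
def S_SUM : Prop := ∀ (Q S : Finset ℕ) (ϖ : ℕ → RR), Dt Q S ϖ → ∀ (a x : ℕ × Bool → ZMod 2),
  ∑ j ∈ ix Q S, (∑ i ∈ (ix Q S).erase j, mr (pfx Q ϖ) i j * x i +
    x j * (a j + ∑ i ∈ (ix Q S).erase j, mr (pfx Q ϖ) i j)) =
  ∑ j ∈ ix Q S, x j * (a j + kn (pfx Q ϖ) j)

/-- A3: the case `D ≡ 3` modulo `4` -/
def S_A3 : Prop := S_R2 → S_FAC → S_EQJ → S_EQ7 → S_SUM → ∀ (Q S : Finset ℕ) (ϖ : ℕ → RR),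
  Dt Q S ϖ → (∏ p ∈ Q ∪ S, p) % 4 = 3 → NS3 Q S ϖ (∏ p ∈ Q ∪ S, p) → ∀ δ : RR,
    Sel (-fR * ((∏ p ∈ Q ∪ S, p : ℕ) : RR)) aR δ →
      δ = 1 ∨ δ = -fR * ((∏ p ∈ Q ∪ S, p : ℕ) : RR)

/-- AE: the case `D ≡ 2` modulo `4` -/
def S_AE : Prop := S_R2 → S_FAC → S_EQJ → S_EQ7 → S_SUM → ∀ (Q S : Finset ℕ) (ϖ : ℕ → RR),
  Dt Q S ϖ → NSE Q S ϖ (∏ p ∈ Q ∪ S, p) → ∀ δ : RR,
    Sel (-fR * ((2 * ∏ p ∈ Q ∪ S, p : ℕ) : RR)) aR δ →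
      δ = 1 ∨ δ = -fR * ((2 * ∏ p ∈ Q ∪ S, p : ℕ) : RR)

/-- A1: the case `D ≡ 1` modulo `8` -/
def S_A1 : Prop := S_R2 → S_FAC → S_EQJ → S_EQ7 → S_SUM → ∀ (Q S : Finset ℕ) (ϖ : ℕ → RR),
  Dt Q S ϖ → (∏ p ∈ Q ∪ S, p) % 8 = 1 → NonSing Q S ϖ → ∀ δ : RR,
    Sel (-fR * ((∏ p ∈ Q ∪ S, p : ℕ) : RR)) aR δ →
      δ = 1 ∨ δ = -fR * ((∏ p ∈ Q ∪ S, p : ℕ) : RR)

/-- A5: the case `D ≡ 5` modulo `8` -/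
def S_A5 : Prop := S_R2 → S_FAC → S_EQJ → S_EQ7 → S_SUM → ∀ (Q S : Finset ℕ) (ϖ : ℕ → RR),
  Dt Q S ϖ → (∏ p ∈ Q ∪ S, p) % 8 = 5 → NonSing Q S ϖ → ∀ δ : RR,
    Sel5 (-fR * ((∏ p ∈ Q ∪ S, p : ℕ) : RR)) aR (1 - aR) δ →
      δ = 1 ∨ δ = -fR * ((∏ p ∈ Q ∪ S, p : ℕ) : RR)

end Pool.Agent.L0h75.H1
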