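import Pool.Agent.L0h75.H1.C
import Pool.Agent.R384.X.Mq7

/-!
# H1: the passage to the multiquadratic fields
-/

set_option autoImplicit false
set_option linter.unusedSectionVars false

namespace Pool.Agent.L0h75.H1

open Pool.Agent.R384
open Pool.Agent.Y715.Red Pool.Agent.Y715.Nr Pool.Agent.W237.RK
open Pool.Agent.Y715.Gi (QB KK GK i₀_mem gk_fix)
open Pool.Agent.Y715.Df (Cmp exists_cmp)

/-- the data of the characters of `E_D`, with or without the characters modulo `8` -/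
def Van (P : Prop) (D : OO) : Prop := ∀ (i₀ : QB) (hi : i₀ ^ 2 = i₀ - 2)
  (κ κ' : GK i₀ →* ℤ_[2]ˣ) (r I : QB), KD hi κ κ' D r I → (P → K8D i₀ κ κ') → ∀ (j : ℤ) (ϖ ϖ' : OO),
  ((Even j ∧ ϖ = om ∧ ϖ' = 1 - om) ∨ (Odd j ∧ ϖ = 1 - om ∧ ϖ' = om)) →
  ∀ c : GK i₀ → ℚ_[2], Coc (κ ^ j * κ' ^ (1 - j)) c →
    (∀ (p : ℕ) [Fact p.Prime] (ι : QB →ₐ[ℚ] PadicAlgCl p), p ≠ 2 →
      CobOn (κ ^ j * κ' ^ (1 - j)) (II ι) c) →
    (∀ ι : QB →ₐ[ℚ] PadicAlgCl 2, ‖ι (em hi ϖ)‖ < 1 →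
      CobOn (κ ^ j * κ' ^ (1 - j)) (DD ι) c) →
    ∃ y : ℚ_[2], ∀ σ, c σ = (vl (κ ^ j * κ' ^ (1 - j)) σ - 1) * y

/-- the vanishing for the numbers which are not squares at the strict place -/
theorem van_of {D : OO} (P : Prop) (hsf : Squarefree D) (hsf' : Squarefree (-D))
    (h1 : ¬ Lsq om D) (h2 : ¬ Lsq (1 - om) (-D)) (h3 : ∀ δ : OO, Sel D om δ → δ = 1 ∨ δ = D)
    (h4 : ∀ δ : OO, Sel (-D) (1 - om) δ → δ = 1 ∨ δ = -D) : Van P D := by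
  intro i₀ hi κ κ' r I kd _ j ϖ ϖ' hϖ c hc hodd hstr
  by_contra hn
  obtain ⟨m, s, hm, cd⟩ := chiD7 hi kd j
  rcases hϖ with ⟨hj, e1, e2⟩ | ⟨hj, e1, e2⟩
  · have hm' : m = D := by
      rcases hm with ⟨-, h⟩ | ⟨h, -⟩
      · exact h
      · exact absurd hj (Int.not_even_iff_odd.2 h)
    subst hm'
    obtain ⟨δ, h5, h6, h7⟩ := t_C i₀ hi _ m s cd hsf ϖ ϖ' (Or.inl ⟨e1, e2⟩) (by rw [e1]; exact h1) c
      hc hodd hstr hn
    rw [e1] at h5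
    rcases h3 δ h5 with h | h
    · exact h6 h
    · exact h7 h
  · have hm' : m = -D := by
      rcases hm with ⟨h, -⟩ | ⟨-, h⟩
      · exact absurd h (Int.not_even_iff_odd.2 hj)
      · exact h
    subst hm'
    obtain ⟨δ, h5, h6, h7⟩ := t_C i₀ hi _ (-D) s cd hsf' ϖ ϖ' (Or.inr ⟨e1, e2⟩)
      (by rw [e1]; exact h2) c hc hodd hstr hn
    rw [e1] at h5
    rcases h4 δ h5 with h | h
    · exact h6 h
    · exact h7 h

/-- the vanishing for the numbers which are squares at the strict place -/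
theorem van_of5 {D Q : OO} {P : Prop} (hP : P) (h5 : S_P5) (t5 : S_T5) (hsf : Squarefree D)
    (hD : D = -(s7 * Q)) (h8 : (8 : OO) ∣ Q - 5)
    (h3 : ∀ δ : OO, Sel5 D om (1 - om) δ → δ = 1 ∨ δ = D)
    (h4 : ∀ δ : OO, Sel5 (-D) (1 - om) om δ → δ = 1 ∨ δ = -D) : Van P D := by
  intro i₀ hi κ κ' r I kd k8 j ϖ ϖ' hϖ c hc hodd hstr
  by_contra hn
  rcases hϖ with ⟨hj, e1, e2⟩ | ⟨hj, e1, e2⟩
  · obtain ⟨δ, h6, h7, h9⟩ := h5 t5 i₀ hi κ κ' D Q r I kd (k8 hP) hD h8 hsf j ϖ ϖ' D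
      (Or.inl ⟨hj, e1, e2, rfl⟩) c hc hodd hstr hn
    rw [e1, e2] at h6
    rcases h3 δ h6 with h | h
    · exact h7 h
    · exact h9 h
  · obtain ⟨δ, h6, h7, h9⟩ := h5 t5 i₀ hi κ κ' D Q r I kd (k8 hP) hD h8 hsf j ϖ ϖ' (-D)
      (Or.inr ⟨hj, e1, e2, rfl⟩) c hc hodd hstr hn
    rw [e1, e2] at h6
    rcases h4 δ h6 with h | h
    · exact h7 h
    · exact h9 h

section mq

variable {i₀ : QB} (hi : i₀ ^ 2 = i₀ - 2)
variable {n : ℕ} {s : Fin n → QB} {κ κ' : GK i₀ →* ℤ_[2]ˣ} {D : OO} {r I : QB}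

/-- the characters modulo `8` of a quadratic twist -/
lemma K8D.twist {ε : GK i₀ →* ℤ_[2]ˣ} (h : K8D i₀ κ κ') (hε : ∀ σ, ε σ = 1 ∨ ε σ = -1) :
    K8D i₀ (κ * ε) (κ' * ε) := by
  have key : ∀ (κ : GK i₀ →* ℤ_[2]ˣ) (σ : GK i₀),
      ((8 : ℤ_[2]) ∣ ((κ * ε) σ : ℤ_[2]) - 1 ∨ (8 : ℤ_[2]) ∣ ((κ * ε) σ : ℤ_[2]) + 1) ↔
      ((8 : ℤ_[2]) ∣ (κ σ : ℤ_[2]) - 1 ∨ (8 : ℤ_[2]) ∣ (κ σ : ℤ_[2]) + 1) := by
    intro κ σ
    have e : (κ * ε) σ = κ σ * ε σ := rfl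
    rw [e]
    rcases hε σ with h1 | h1
    · rw [h1, mul_one]
    · rw [h1]
      have e1 : ((κ σ * -1 : ℤ_[2]ˣ) : ℤ_[2]) = -(κ σ : ℤ_[2]) := by
        rw [mul_neg, mul_one, Units.val_neg]
      rw [e1]
      have e2 : -(κ σ : ℤ_[2]) - 1 = -((κ σ : ℤ_[2]) + 1) := by ring
      have e3 : -(κ σ : ℤ_[2]) + 1 = -((κ σ : ℤ_[2]) - 1) := by ring
      rw [e2, e3, dvd_neg, dvd_neg, or_comm]
  refine ⟨fun t ht σ => ?_, fun t ht σ => ?_⟩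
  · rw [key]; exact h.a t ht σ
  · rw [key]; exact h.b t ht σ

lemma sgc_or {ε : GK i₀ →* ℤˣ} (σ : GK i₀) : sgc ε σ = 1 ∨ sgc ε σ = -1 := by
  rcases Int.units_eq_one_or (ε σ) with h | h
  · exact Or.inl (sgc_one h)
  · exact Or.inr (sgc_neg h)

/-- **The vanishing theorem over multiquadratic fields.** -/
theorem vanish_mq' {E : Fin n → OO} (hE : ∀ i, s i ^ 2 = em hi (E i)) (kd : KD hi κ κ' D r I)
    (hD : D ≠ 0) (hE0 : ∀ i, E i ≠ 0) (P : Prop) (k8 : P → K8D i₀ κ κ')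
    (hgood : ∀ T : Finset (Fin n), ∃ (D' z : OO), z ≠ 0 ∧ Van P D' ∧ D * ∏ i ∈ T, E i = D' * z ^ 2)
    (j : ℤ) {ϖ ϖ' : OO}
    (hϖ : (Even j ∧ ϖ = om ∧ ϖ' = 1 - om) ∨ (Odd j ∧ ϖ = 1 - om ∧ ϖ' = om)) :
    VanOn hi ϖ (κ ^ j * κ' ^ (1 - j)) (fixs s Finset.univ) := by
  classical
  have hs0 : ∀ i, s i ≠ 0 := by
    intro i h
    have h1 := hE i
    rw [h, zero_pow two_ne_zero] at h1
    exact hE0 i (em_inj hi h1.symm)
  have hs : ∀ (i) (σ : GK i₀), σ (s i) = s i ∨ σ (s i) = -s i := fun i σ => rt_or hi (hE i) σ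
  refine van_all hi hs0 hs ϖ Finset.univ _ fun T _ => ?_
  obtain ⟨D', z, hz, hV, hprod⟩ := hgood T
  have kd1 := KD.twists hi hs0 hs hE kd hD hE0 T
  have hz0 : em hi z ≠ 0 := em_ne hi hz
  have kd2 := KD.resc hi kd1 (D' := D') (u := (em hi z)⁻¹) (inv_ne_zero hz0)
    (fun σ => by rw [map_inv₀, gk_em]) (by
      rw [mul_pow, kd1.hr, hprod, map_mul, map_pow]
      field_simp)
  set S := ∏ i ∈ T, sgc (es (hs0 i) (hs i)) with hS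
  have hSor : ∀ σ, S σ = 1 ∨ S σ = -1 := by
    intro σ
    rw [hS, MonoidHom.finset_prod_apply]
    refine Finset.prod_induction _ (fun u : ℤ_[2]ˣ => u = 1 ∨ u = -1) ?_ (Or.inl rfl)
      fun i _ => sgc_or σ
    rintro a b (rfl | rfl) (rfl | rfl) <;> simp
  have e : κ ^ j * κ' ^ (1 - j) * S = (κ * S) ^ j * (κ' * S) ^ (1 - j) := by
    refine MonoidHom.ext fun σ => ?_
    have key : ∀ a b c : ℤ_[2]ˣ, a ^ j * b ^ (1 - j) * c = (a * c) ^ j * (b * c) ^ (1 - j) :=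
      fun a b c => by
        rw [mul_zpow, mul_zpow, mul_mul_mul_comm, ← zpow_add, add_sub_cancel, zpow_one]
    exact key _ _ _
  intro c hc hodd hstr
  rw [e] at hc hodd hstr ⊢
  obtain ⟨y, hy⟩ := hV i₀ hi _ _ _ _ kd2 (fun hP => (k8 hP).twist hSor) j ϖ ϖ' hϖ c ⟨by
      have := hc.cont
      rwa [Subgroup.coe_top, continuousOn_univ] at this, fun σ τ => hc.mul σ trivial τ trivial⟩
    (fun p _ ι hp => by
      obtain ⟨y, hy⟩ := hodd p ι hp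
      exact ⟨y, fun σ hσ => hy σ hσ trivial⟩)
    (fun ι hι => by
      obtain ⟨y, hy⟩ := hstr ι hι
      exact ⟨y, fun σ hσ => hy σ hσ trivial⟩)
  exact ⟨y, fun σ _ => hy σ⟩

end mq

end Pool.Agent.L0h75.H1
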