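import Pool.Agent.L0h75.H1.Sf
import Pool.Agent.L0h75.H1.Mq
import Pool.Agent.L0h1.EV.All
import Pool.Agent.L0h61.EV.R2

/-!
# H1: the vanishing for all the positive squarefree numbers prime to `7`
-/

set_option autoImplicit false

attribute [-instance] DivisionRing.toRatAlgebra

namespace Pool.Agent.L0h75.H1

open Pool.Agent.Y698 hiding s7
open Pool.Agent.Y698.SG Pool.Agent.L0h4.TW
open Pool.Agent.L0h74.EV (QPw CritA NSA qpw_of critA_iff)
open Pool.Agent.L0h1.EV (TT tt_iff)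
open Pool.Agent.L0h23.ED (S_R2)
open Pool.Agent.R384 (OO om s7)

/-- the modules -/
structure HA : Prop where
  fac : S_FAC
  eqj : S_EQJ
  eq7 : S_EQ7
  sum : S_SUM
  a3 : S_A3
  ae : S_AE
  a1 : S_A1
  a5 : S_A5
  t5 : S_T5
  p5 : S_P5

lemma van_m {M : ℕ} (P : Prop) (hsf : Squarefree M) (h5 : M % 8 ≠ 5)
    (hR : Squarefree (-fR * (M : RR)))
    (h : ∀ δ : RR, Sel (-fR * (M : RR)) aR δ → δ = 1 ∨ δ = -fR * (M : RR)) :
    Van P (-(s7 * (M : OO))) := by
  obtain ⟨s1, s2⟩ := sf_om hR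
  refine van_of P s1 (by rwa [neg_neg]) (not_lsq_om hsf h5) (by rw [neg_neg]; exact not_lsq_cj hsf h5)
    (fun δ hδ => triv_om h hδ) (fun δ hδ => ?_)
  rw [neg_neg] at hδ ⊢
  exact triv_cj h hδ

/-- **the vanishing** -/
theorem van_M (H : HA) {M : ℕ} (hsf : Squarefree M) (h7 : ¬ 7 ∣ M) (hT : TT M) :
    Van True (-(s7 * (M : OO))) := by
  obtain ⟨w, hw⟩ := Pool.Agent.L0h4.TA.exists_w
  have hq := qpw_of hw
  have hns := (critA_iff hq hsf h7).1 ((tt_iff hq hsf h7).1 hT)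
  have r2 : S_R2 := Pool.Agent.L0h61.EV.r2
  rcases hns with ⟨h4, hns⟩ | ⟨h4, hns⟩ | ⟨h2, hns⟩
  · have hd := hq.dt (D := M) (by omega) h7
    have hP := hq.prod hsf
    have hR := (sf_R hd).1
    rw [← hP] at hR
    by_cases h5 : M % 8 = 5
    · obtain ⟨s1, s2⟩ := sf_om hR
      have h := H.a5 r2 H.fac H.eqj H.eq7 H.sum _ _ _ hd (by rw [← hP]; exact h5) hns
      rw [← hP] at h
      refine van_of5 trivial H.p5 H.t5 s1 rfl ?_ (fun δ hδ => triv5_om h hδ) (fun δ hδ => ?_)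
      · obtain ⟨k, hk⟩ : ∃ k : ℕ, M = 5 + 8 * k := ⟨M / 8, by omega⟩
        refine ⟨(k : OO), ?_⟩
        rw [hk]
        push_cast
        ring
      · rw [neg_neg] at hδ ⊢
        exact triv5_cj h hδ
    · have h := H.a1 r2 H.fac H.eqj H.eq7 H.sum _ _ _ hd (by rw [← hP]; omega) hns
      rw [← hP] at h
      exact van_m True hsf h5 hR h
  · have hd := hq.dt (D := M) (by omega) h7
    have hP := hq.prod hsf
    have hR := (sf_R hd).1
    rw [← hP] at hR
    have h := H.a3 r2 H.fac H.eqj H.eq7 H.sum _ _ _ hd (by rw [← hP]; exact h4)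
      (by rw [← hP]; exact hns)
    rw [← hP] at h
    exact van_m True hsf (by omega) hR h
  · have eD : M = 2 * (M / 2) := by omega
    have hsf2 : Squarefree (M / 2) := by
      have := hsf
      rw [eD] at this
      exact Squarefree.squarefree_of_dvd (Dvd.intro_left _ rfl) this
    have h7' : ¬ 7 ∣ M / 2 := fun h' => h7 (by rw [eD]; exact Dvd.dvd.mul_left h' 2)
    have hodd : M / 2 % 2 = 1 := by
      by_contra hcon
      have h5 : 2 * 2 ∣ M := by omega
      exact absurd (hsf 2 h5) (by rw [Nat.isUnit_iff]; norm_num)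
    have hd := hq.dt (D := M / 2) hodd h7'
    have hP := hq.prod hsf2
    have hR := (sf_R hd).2
    rw [← hP, ← eD] at hR
    have h := H.ae r2 H.fac H.eqj H.eq7 H.sum _ _ _ hd (by rw [← hP]; exact hns)
    rw [← hP, ← eD] at h
    exact van_m True hsf (by omega) hR h

end Pool.Agent.L0h75.H1
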