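import Pool.Agent.L0h75.H1.Stm2

/-!
# H1: the two characters of the Tate module with their values modulo `8`
-/

set_option autoImplicit false
set_option linter.unusedSectionVars false

namespace Pool.Agent.L0h75.H1

open Pool.Agent.R384
open WeierstrassCurve Pool.Agent.Y676.IS
open scoped Classical
open Pool.Agent.Y715.Red Pool.Agent.Y715.Nr Pool.Agent.W237.RK
open Pool.Agent.Y715.Gi (QB KK GK i₀_mem gk_fix)
open Pool.Agent.Y715.Df (Cmp exists_cmp)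

variable {i₀ : QB} (hi : i₀ ^ 2 = i₀ - 2)

/-- `exists_kd` with the characters modulo `8` -/
theorem exists_kd8 (k8 : S_K8) {D : OO} (hD : D ≠ 0) (h : WD i₀ (em hi D)) {r I : QB}
    (hr : r ^ 2 = em hi D) (hI : I ^ 2 = -1) (fx : ∀ σ : GK i₀, Fx i₀ (em hi D) (rh σ)) :
    ∃ (κ κ' : GK i₀ →* ℤ_[2]ˣ) (x y : ℕ → (Cu (ca i₀ (em hi D)) (cb i₀ (em hi D))).Point),
      KD hi κ κ' D r I ∧ Tow (eF h) (tA h) x ∧ Tow (eG h) (tB h) y ∧
      (∀ σ, ActsBy x (act h fx σ) (κ' σ)) ∧ (∀ σ, ActsBy y (act h fx σ) (κ σ)) ∧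
      K8D i₀ κ κ' := by
  obtain ⟨x, hx⟩ := (td h).exists_tow
  obtain ⟨z, hz⟩ := (td h.bar).exists_tow
  obtain ⟨κ', a1, a2, a3, a4, a5⟩ := exists_kap h fx hx hr
  have hr' : (I * r) ^ 2 = -em hi D := by rw [mul_pow, hI, hr]; ring
  have fxb : ∀ σ : GK i₀, Fx (1 - i₀) (-em hi D) (rh σ) := fun σ => (fx σ).bar
  obtain ⟨κ, b1, b2, b3, b4, b5⟩ := exists_kap h.bar fxb hz hr'
  let S : (Cu (ca (1 - i₀) (-em hi D)) (cb (1 - i₀) (-em hi D))).Point →+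
      (Cu (ca i₀ (em hi D)) (cb i₀ (em hi D))).Point :=
    { toFun := shF h.sh, map_zero' := rfl, map_add' := shF_add h.sh }
  have hS : ∀ P, S P = shF h.sh P := fun P => rfl
  refine ⟨κ, κ', x, fun n => S (z n), ⟨hr, hI, b1, a1, fun σ h => ph_one.2 (b3 σ h),
    fun σ h => ph_neg.2 (b4 σ h), fun σ h => ph_one.2 (a3 σ h), fun σ h => ph_neg.2 (a4 σ h), ?_,
    a5⟩, hx, ?_, a2, ?_, ?_, ?_⟩
  · intro p _ ι τ σ hc hin hw
    refine b5 p ι τ σ hc hin ?_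
    rwa [sub_sub_cancel]
  · exact tow_S h hz
  · intro σ n k hk
    have h1 := b2 σ n k hk
    show act h fx σ (S (z n)) = k • S (z n)
    rw [← map_zsmul, ← h1]
    exact gal_shF h (fx σ) (z n)
  · intro t ht σ
    refine k8 i₀ (1 - i₀) (-em hi D) h.bar fxb z hz κ b2 t ?_ σ
    rw [ht, sub_sub_cancel]
  · intro t ht σ
    exact k8 i₀ i₀ (em hi D) h fx x hx κ' a2 t ht σ

end Pool.Agent.L0h75.H1
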