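import Pool.Agent.L0h75.H1.SelM
import Pool.Agent.L0h91.H1.FAC
import Pool.Agent.L0h91.H1.EQJ
import Pool.Agent.L0h91.H1.EQ7
import Pool.Agent.L0h26.H1.A1
import Pool.Agent.L0h26.H1.A3
import Pool.Agent.L0h23.H1.AE
import Pool.Agent.L0h23.H1.A5
import Pool.Agent.L0h30.H1.T5
import Pool.Agent.L0h19.H1.P5
import Pool.Agent.L0h11.H1.K8

/-!
# H1: all the modules
-/

set_option autoImplicit false

attribute [-instance] DivisionRing.toRatAlgebra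

namespace Pool.Agent.L0h75.H1

open Pool.Agent.R384 (OO om s7)
open Pool.Agent.L0h1.EV (TT)

theorem hb : HB :=
  ⟨Pool.Agent.L0h91.H1.t_FAC, Pool.Agent.L0h91.H1.t_EQJ, Pool.Agent.L0h91.H1.t_EQ7,
    Pool.Agent.L0h26.H1.t_SUM, Pool.Agent.L0h26.H1.t_A3, Pool.Agent.L0h23.H1.t_AE,
    Pool.Agent.L0h26.H1.t_A1⟩

theorem ha : HA :=
  ⟨Pool.Agent.L0h91.H1.t_FAC, Pool.Agent.L0h91.H1.t_EQJ, Pool.Agent.L0h91.H1.t_EQ7,
    Pool.Agent.L0h26.H1.t_SUM, Pool.Agent.L0h26.H1.t_A3, Pool.Agent.L0h23.H1.t_AE,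
    Pool.Agent.L0h26.H1.t_A1, Pool.Agent.L0h23.H1.t_A5, Pool.Agent.L0h30.H1.t_T5,
    Pool.Agent.L0h19.H1.t_P5⟩

theorem van_all {M : ℕ} (hsf : Squarefree M) (h7 : ¬ 7 ∣ M) (hT : TT M) :
    Van True (-(s7 * (M : OO))) := van_M ha hsf h7 hT

end Pool.Agent.L0h75.H1
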