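import Pool.Agent.L0h75.H1.Stm2

/-!
# H1-C: the residual class of a cocycle
-/

set_option autoImplicit false
set_option linter.unusedSectionVars false

namespace Pool.Agent.L0h75.H1

open Pool.Agent.R384
open Pool.Agent.Y715.Red Pool.Agent.Y715.Nr Pool.Agent.W237.RK
open Pool.Agent.Y715.Gi (QB KK GK i₀_mem gk_fix)
open Pool.Agent.Y715.Df (Cmp exists_cmp)
open Pool.Agent.Y715.Lc (norm_two_odd)

open scoped Classical

/-- squares at all the odd places -/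
lemma residG {p : ℕ} [Fact p.Prime] {w : PadicAlgCl p} (hw : w ^ 2 = w - 2) (hp : p ≠ 2) {ρ : OO}
    (hρ : Prime ρ) (hl : ‖em hw ρ‖ < 1) {x : OO} {y : PadicAlgCl p} (hy : y ^ 2 = em hw x)
    (hfix : ∀ τ : Au p, τ w = w → τ y = y) : Sqm ρ x := by
  by_cases hp7 : p = 7
  · subst hp7
    have e7 : ((7 : ℕ) : OO) = -(s7 * s7) := by
      rw [s7_sq]
      simp
    have h1 : ρ ∣ s7 := by
      have h2 := (dvd_iff hw hρ hl ((7 : ℕ) : OO)).2 (p_lt hw)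
      rw [e7, dvd_neg] at h2
      exact (hρ.dvd_or_dvd h2).elim id id
    obtain ⟨z, hz⟩ := resid7 hw ((dvd_iff hw hρ hl s7).1 h1) hy hfix
    exact ⟨z, h1.trans hz⟩
  · exact resid hw hp hp7 hρ hl hy hfix

variable {i₀ : QB} (hi : i₀ ^ 2 = i₀ - 2)
variable {χ : GK i₀ →* ℤ_[2]ˣ} {m : OO} {r : QB}

/-- the local condition at a prime divisor of `m` -/
lemma loc_gen (cd : ChiD hi χ m r) {c : GK i₀ → ℚ_[2]} (hc : Coc χ c) (hc1 : ∀ σ, ‖c σ‖ ≤ 1)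
    {q m1 : OO} (hq : Prime q) (hm : m = q * m1) (hq1 : ¬ q ∣ m1)
    {p : ℕ} [Fact p.Prime] (hp2 : p ≠ 2) {ι : QB →ₐ[ℚ] PadicAlgCl p} (hι : ‖em (iw hi ι) q‖ < 1)
    (hD : CobOn χ (II ι) c) {δ : OO} (hδ : Squarefree δ) {s : QB}
    (hs : s ^ 2 = em hi δ) (hk : ∀ σ : GK i₀, σ s = s ↔ md c σ = 0) :
    (¬ q ∣ δ ∧ Sqm q δ) ∨ ∃ δ1, δ = q * δ1 ∧ Sqm q (δ1 * m1) := by
  obtain ⟨σ₀, h0, h2⟩ := exists_ram hi cd hq hm hq1 hι
  have hχ : vl χ σ₀ = -1 := by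
    obtain ⟨τ, hτ, hin⟩ := h0
    unfold vl
    rw [(cd.inert p ι τ σ₀ hp2 hτ hin).2 h2]
    simp
  have hD' : CobOn χ (DD ι) c := dec_of_inert hc hD h0 hχ fun τ hτ => conj_mem h0 hτ
  have hsq : (ι s) ^ 2 = em (iw hi ι) δ := by rw [← map_pow, hs, ι_em]
  rcases loc_dich hi cd hc1 hD' (II_sub h0) h2 hs hk with h | h
  · left
    refine ⟨not_dvd_of_fix (iw hi ι) hq hι hδ hsq fun τ _ hτ => fix_D h τ hτ, ?_⟩
    exact residG (iw hi ι) hp2 hq hι hsq (fix_D h)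
  · right
    have hsr : (s * r) ^ 2 = em hi (δ * m) := by rw [mul_pow, hs, cd.hr, map_mul]
    have hdv : q ∣ δ := by
      by_contra hcon
      refine no_simple (iw hi ι) hq hι (t := δ * m1) (s := ι (s * r))
        (fun h => (hq.dvd_or_dvd h).elim hcon hq1) ?_ fun τ _ hτ => fix_D h τ hτ
      rw [← map_pow, hsr, ι_em, hm]
      congr 1
      ring
    obtain ⟨δ1, hδ1⟩ := hdv
    refine ⟨δ1, hδ1, ?_⟩
    have hq0 : em (iw hi ι) q ≠ 0 := em_ne _ hq.ne_zero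
    refine residG (iw hi ι) hp2 hq hι (y := ι (s * r) / em (iw hi ι) q) ?_ ?_
    · rw [div_pow, ← map_pow, hsr, ι_em, hδ1, hm, div_eq_iff (pow_ne_zero _ hq0), ← map_pow,
        ← map_mul]
      congr 1
      ring
    · intro τ hτ
      rw [map_div₀, fix_D h τ hτ, em_fix (iw hi ι) hτ]

lemma two_prime {ϖ ϖ' : OO} (h : Two ϖ ϖ') : Prime ϖ ∧ Prime ϖ' ∧ ϖ * ϖ' = 2 ∧
    ϖ * (1 - ϖ) = 2 := by
  rcases h with ⟨rfl, rfl⟩ | ⟨rfl, rfl⟩
  · exact ⟨prime_om, prime_om', om_mul, om_mul⟩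
  · refine ⟨prime_om', prime_om, by rw [mul_comm]; exact om_mul, ?_⟩
    rw [sub_sub_cancel, mul_comm]
    exact om_mul

/-- divisibility by the powers of the prime above two -/
lemma dvd_pow_of {w : PadicAlgCl 2} (hw : w ^ 2 = w - 2) {ϖ ϖ' : OO} (h : Two ϖ ϖ')
    (hl : ‖em hw ϖ‖ < 1) (k : ℕ) : ∀ x : OO, ‖em hw x‖ ≤ (1 / 2) ^ k → ϖ ^ k ∣ x := by
  obtain ⟨hp, -, -, h4⟩ := two_prime h
  have hn : ‖em hw ϖ‖ = 1 / 2 := half_norm (by rw [← map_one (em hw), ← map_sub, ← map_mul, h4,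
    map_ofNat]) hl
  induction k with
  | zero => intro x _; simp
  | succ k ih =>
    intro x hx
    have h1 : ‖em hw x‖ < 1 := lt_of_le_of_lt hx (by
      apply pow_lt_one₀ <;> norm_num)
    obtain ⟨t, rfl⟩ := (dvd_iff hw hp hl x).2 h1
    rw [pow_succ']
    refine mul_dvd_mul_left ϖ (ih t ?_)
    rw [map_mul, norm_mul, hn, pow_succ'] at hx
    linarith

/-- local squares at the prime above two -/
lemma lsq_of_fix {w : PadicAlgCl 2} (hw : w ^ 2 = w - 2) {ϖ ϖ' : OO} (h : Two ϖ ϖ')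
    (hl : ‖em hw ϖ‖ < 1) {x : OO} (hx : ¬ ϖ ^ 3 ∣ x) {y : PadicAlgCl 2} (hy : y ^ 2 = em hw x)
    (hfix : ∀ τ : Au 2, τ y = y) : Lsq ϖ x := by
  obtain ⟨hp, -, -, -⟩ := two_prime h
  have key : ∀ (x : OO) (y : PadicAlgCl 2), ¬ ϖ ∣ x → y ^ 2 = em hw x → (∀ τ : Au 2, τ y = y) →
      ϖ ^ 3 ∣ x - 1 := by
    intro x y hx hy hfix
    have h3 := eq_one_of_not_lt hw ((dvd_iff hw hp hl x).not.1 hx)
    rw [← hy, norm_pow] at h3
    have h4 := sq_mod_eight ((pow_eq_one_iff_of_nonneg (norm_nonneg _) two_ne_zero).1 h3) hfix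
    rw [hy] at h4
    refine dvd_pow_of hw h hl 3 _ ?_
    rw [map_sub, map_one]
    refine h4.trans (by norm_num)
  by_cases h1 : ϖ ∣ x
  · obtain ⟨t, rfl⟩ := h1
    by_cases h2 : ϖ ∣ t
    · obtain ⟨u, rfl⟩ := h2
      have h3 : ¬ ϖ ∣ u := fun ⟨v, hv⟩ => hx ⟨v, by rw [hv]; ring⟩
      refine ⟨u, Or.inr (by ring), key u (y / em hw ϖ) h3 ?_ ?_⟩
      · have h0 : em hw ϖ ≠ 0 := em_ne hw hp.ne_zero
        rw [div_pow, hy, map_mul, map_mul]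
        field_simp
      · intro τ
        rw [map_div₀, hfix, em_fix hw (two_fix hw τ)]
    · exact (no_simple hw hp hl h2 hy fun τ _ _ => hfix τ).elim
  · exact ⟨x, Or.inl rfl, key x y h1 hy hfix⟩

/-- the residual class is not trivial -/
lemma not_triv (cd : ChiD hi χ m r) {c' : GK i₀ → ℚ_[2]} (hint : ∀ σ, ‖c' σ‖ ≤ 1)
    (hmin : ∀ z : ℚ_[2], ∃ σ, ¬ ‖c' σ - (vl χ σ - 1) * z‖ < 1) {δ : OO} {s : QB}
    (hs : s ^ 2 = em hi δ) (hk : ∀ σ : GK i₀, σ s = s ↔ md c' σ = 0) : δ ≠ 1 ∧ δ ≠ m := by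
  constructor
  · intro h
    rw [h, map_one] at hs
    obtain ⟨σ, hσ⟩ := hmin 0
    rw [mul_zero, sub_zero] at hσ
    apply hσ
    have h1 : σ s = s := by
      rcases sq_eq_one_iff.1 hs with h2 | h2
      · rw [h2, map_one]
      · rw [h2, map_neg, map_one]
    have h5 : ‖c' σ‖ < 1 := md_zero.1 ((hk σ).1 h1)
    exact h5
  · intro h
    rw [h] at hs
    have hsr : ∀ σ : GK i₀, σ s = s ↔ σ r = r := by
      intro σ
      have h1 : s ^ 2 = r ^ 2 := by rw [hs, cd.hr]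
      rcases sq_eq_sq_iff_eq_or_eq_neg.1 h1 with h2 | h2
      · rw [h2]
      · rw [h2, map_neg, neg_inj]
    obtain ⟨σ, hσ⟩ := hmin (1 / 2)
    apply hσ
    have h2n : ‖(2 : ℚ_[2])‖ = 1 / 2 := norm_two'
    have h3 : ‖(vl χ σ - 1) * (1 / 2)‖ = 2 * ‖vl χ σ - 1‖ := by
      rw [norm_mul, norm_div, norm_one, h2n]
      ring
    by_cases h4 : md c' σ = 0
    · have h5 : ‖c' σ‖ < 1 := md_zero.1 h4
      have h6 := (cd.iff hi σ).2 ((hsr σ).1 ((hk σ).2 h4))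
      have e : c' σ - (vl χ σ - 1) * (1 / 2) = c' σ + -((vl χ σ - 1) * (1 / 2)) := by ring
      have h7 : ‖c' σ - (vl χ σ - 1) * (1 / 2)‖ < 1 := by
        rw [e]
        refine add_lt' h5 ?_
        rw [norm_neg, h3]
        linarith
      exact h7
    · have h5 : ¬ ‖c' σ‖ < 1 := fun h => h4 (md_zero.2 h)
      have h6 := (md_eq (hint σ)).1 h5
      have h7 : σ r = -r := by
        rcases rt_or hi cd.hr σ with h7 | h7
        · exact absurd ((hk σ).1 ((hsr σ).2 h7)) h4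
        · exact h7
      have h8 := cd.big hi h7
      have h9 : ¬ ‖(vl χ σ - 1) * (1 / 2)‖ < 1 := by
        rw [h3, h8]
        norm_num
      have h10 := (md_eq (by rw [h3, h8]; norm_num)).1 h9
      have e : c' σ - (vl χ σ - 1) * (1 / 2) = (c' σ - 1) + -((vl χ σ - 1) * (1 / 2) - 1) := by ring
      rw [e]
      exact add_lt' h6 (by rwa [norm_neg])

/-- the conditions at the odd primes -/
lemma odd_cond (cd : ChiD hi χ m r) {c : GK i₀ → ℚ_[2]} (hc : Coc χ c) (hc1 : ∀ σ, ‖c σ‖ ≤ 1)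
    (hodd : ∀ (p : ℕ) [Fact p.Prime] (ι : QB →ₐ[ℚ] PadicAlgCl p), p ≠ 2 → CobOn χ (II ι) c)
    {δ : OO} (hδ : Squarefree δ) {s : QB}
    (hs : s ^ 2 = em hi δ) (hk : ∀ σ : GK i₀, σ s = s ↔ md c σ = 0) : Odd' m δ := by
  refine ⟨hδ, ?_, ?_⟩
  · intro π hπ hπ2 hπm hπδ
    obtain ⟨l, hl, κ, hκ⟩ := exists_emb hi hπ
    rw [ι_em] at hκ
    have hl2 : l ≠ 2 := fun h => hπ2 ((two_of_dvd hπ (iw hi κ) hκ).1 h)
    have h1 := unram hi cd hl2 (hodd l κ hl2) ((dvd_iff (iw hi κ) hπ hκ m).not.1 hπm)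
    refine not_dvd_of_fix (iw hi κ) hπ hκ hδ (s := κ s) ?_ ?_ hπδ
    · rw [← map_pow, hs, ι_em]
    · intro τ hin hτ
      exact fix_I (fun σ hσ => (hk σ).2 (h1 σ hσ)) τ hin hτ
  · intro π m₁ hπ hπ2 hm hm₁
    obtain ⟨l, hl, κ, hκ⟩ := exists_emb hi hπ
    rw [ι_em] at hκ
    have hl2 : l ≠ 2 := fun h => hπ2 ((two_of_dvd hπ (iw hi κ) hκ).1 h)
    exact loc_gen hi cd hc hc1 hπ hm hm₁ hl2 hκ (hodd l κ hl2) hδ hs hk

theorem t_C : S_C := by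
  intro i₀ hi χ m r cd hsf ϖ ϖ' h2 hns c hc hodd hstr hn
  obtain ⟨hϖp, hϖp', hϖ2, -⟩ := two_prime h2
  -- the strict place
  obtain ⟨p, hpf, ι, hι⟩ := exists_emb hi hϖp
  have hp2 : p = 2 := by
    rw [ι_em] at hι
    exact (two_of_dvd hϖp (iw hi ι) hι).2 ⟨_, hϖ2.symm⟩
  subst hp2
  have hι' : ‖em (iw hi ι) ϖ‖ < 1 := by rwa [ι_em] at hι
  have hsf3 : ∀ x : OO, Squarefree x → ¬ ϖ ^ 2 ∣ x := fun x hx h =>
    hϖp.not_isUnit (hx ϖ (by rwa [← pow_two]))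
  -- an element of the decomposition group which moves `√m`
  obtain ⟨σ₀, hσD, hσ₀⟩ : ∃ σ ∈ (DD ι : Set (GK i₀)), σ r = -r := by
    by_contra hcon
    push Not at hcon
    have hfix : ∀ τ : Au 2, τ (ι r) = ι r := by
      intro τ
      refine fix_D (fun σ hσ => ?_) τ (two_fix (iw hi ι) τ)
      rcases rt_or hi cd.hr σ with h | h
      · exact h
      · exact absurd h (hcon σ hσ)
    refine hns (lsq_of_fix (iw hi ι) h2 hι' (fun h => hsf3 m hsf ((pow_dvd_pow ϖ (by norm_num)).trans h))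
      (y := ι r) ?_ hfix)
    rw [← map_pow, cd.hr, ι_em]
  -- normalization
  obtain ⟨a, y, ha, hint, hmin⟩ := normalize hc (cd.big hi hσ₀) hn
  set c' : GK i₀ → ℚ_[2] := fun σ => a * c σ + (vl χ σ - 1) * y with hc'
  have hcc : Coc χ c' := hc.twist cd.cont a y
  have hodd' : ∀ (p : ℕ) [Fact p.Prime] (ι : QB →ₐ[ℚ] PadicAlgCl p), p ≠ 2 →
      CobOn χ (II ι) c' := fun p _ ι hp => (hodd p ι hp).twist a y
  have hstr' : CobOn χ (DD ι) c' := (hstr ι hι).twist a y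
  -- Kummer theory
  obtain ⟨δ, hδ, hkum⟩ := kum hi (md c') (md_cont hcc) (md_mul hcc hint)
  obtain ⟨s, hs⟩ : ∃ s : QB, s ^ 2 = em hi δ := IsAlgClosed.exists_pow_nat_eq _ (by norm_num)
  have hk : ∀ σ : GK i₀, σ s = s ↔ md c' σ = 0 := hkum s hs
  obtain ⟨hne1, hne2⟩ := not_triv hi cd hint hmin hs hk
  refine ⟨δ, ⟨odd_cond hi cd hcc hint hodd' hδ hs hk, ?_⟩, hne1, hne2⟩
  have hsq : (ι s) ^ 2 = em (iw hi ι) δ := by rw [← map_pow, hs, ι_em]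
  rcases loc_dich hi cd hint hstr' hσD hσ₀ hs hk with h | h
  · left
    exact lsq_of_fix (iw hi ι) h2 hι' (fun h => hsf3 δ hδ ((pow_dvd_pow ϖ (by norm_num)).trans h)) hsq
      fun τ => fix_D h τ (two_fix (iw hi ι) τ)
  · right
    have hsr : (ι (s * r)) ^ 2 = em (iw hi ι) (δ * m) := by
      rw [← map_pow, mul_pow, hs, cd.hr, ← map_mul, ι_em]
    refine lsq_of_fix (iw hi ι) h2 hι' (fun h3 => ?_) hsr
      fun τ => fix_D h τ (two_fix (iw hi ι) τ)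
    have h31 : ϖ ∣ δ := by
      by_contra hcon
      have h4 : ϖ ^ 3 ∣ m := hϖp.pow_dvd_of_dvd_mul_left 3 hcon h3
      exact hsf3 m hsf ((pow_dvd_pow ϖ (by norm_num)).trans h4)
    obtain ⟨δ1, hδ1⟩ := h31
    have h5 : ¬ ϖ ∣ δ1 := fun ⟨v, hv⟩ => hsf3 δ hδ ⟨v, by rw [hδ1, hv]; ring⟩
    have h6 : ϖ ^ 2 ∣ δ1 * m := by
      have h7 : ϖ * ϖ ^ 2 ∣ ϖ * (δ1 * m) := by
        have e : ϖ * (δ1 * m) = δ * m := by rw [hδ1]; ring
        rw [e, ← pow_succ']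
        exact h3
      exact (mul_dvd_mul_iff_left hϖp.ne_zero).1 h7
    exact hsf3 m hsf (hϖp.pow_dvd_of_dvd_mul_left 2 h5 h6)

end Pool.Agent.L0h75.H1
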