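import Mathlib

/-!
# H1: the local conditions for the residual classes
-/

set_option autoImplicit false

namespace Pool.Agent.L0h75.H1

/-- `x` is a square modulo `q` -/
def Sqq {R : Type} [CommRing R] (q x : R) : Prop := ∃ y : R, q ∣ x - y ^ 2

/-- `x` is a square at the prime `ϖ` above two of degree one (valuation zero or two) -/
def Lsq {R : Type} [CommRing R] (ϖ x : R) : Prop :=
  ∃ y : R, (x = y ∨ x = ϖ ^ 2 * y) ∧ ϖ ^ 3 ∣ y - 1

/-- the conditions at the odd primes -/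
structure Odd' {R : Type} [CommRing R] (m δ : R) : Prop where
  sf : Squarefree δ
  un : ∀ π : R, Prime π → ¬ π ∣ 2 → ¬ π ∣ m → ¬ π ∣ δ
  lo : ∀ π m₁ : R, Prime π → ¬ π ∣ 2 → m = π * m₁ → ¬ π ∣ m₁ →
    (¬ π ∣ δ ∧ Sqq π δ) ∨ ∃ δ₁, δ = π * δ₁ ∧ Sqq π (δ₁ * m₁)

/-- the Selmer conditions: `δ` or `δ m` is a square at the strict place `ϖ` -/
structure Sel {R : Type} [CommRing R] (m ϖ δ : R) : Prop where
  odd : Odd' m δ
  st : Lsq ϖ δ ∨ Lsq ϖ (δ * m)

/-- the Selmer conditions for `m` which are squares at the strict place: `δ` is unramified at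
`ϖ` and has even valuation at `ϖ'` -/
structure Sel5 {R : Type} [CommRing R] (m ϖ ϖ' δ : R) : Prop where
  odd : Odd' m δ
  st : ϖ ^ 2 ∣ δ - 1
  ev : ¬ ϖ' ∣ δ

lemma Sqq.map {R R' : Type} [CommRing R] [CommRing R'] (f : R →+* R') {q x : R} (h : Sqq q x) :
    Sqq (f q) (f x) := by
  obtain ⟨y, hy⟩ := h
  exact ⟨f y, by rw [← map_pow, ← map_sub]; exact map_dvd f hy⟩

lemma Lsq.map {R R' : Type} [CommRing R] [CommRing R'] (f : R →+* R') {ϖ x : R} (h : Lsq ϖ x) :
    Lsq (f ϖ) (f x) := by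
  obtain ⟨y, h1, h2⟩ := h
  refine ⟨f y, ?_, ?_⟩
  · rcases h1 with rfl | rfl
    · exact Or.inl rfl
    · exact Or.inr (by rw [map_mul, map_pow])
  · rw [← map_pow, ← map_one f, ← map_sub]
    exact map_dvd f h2

lemma prime_symm {R R' : Type} [CommRing R] [CommRing R'] (f : R ≃+* R') {π : R'} (h : Prime π) :
    Prime (f.symm π) := (MulEquiv.prime_iff f.symm.toMulEquiv).2 h

lemma dvd_symm {R R' : Type} [CommRing R] [CommRing R'] (f : R ≃+* R') {π : R'} {x : R} :
    f.symm π ∣ x ↔ π ∣ f x := by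
  constructor
  · intro h
    have := map_dvd f h
    rwa [f.apply_symm_apply] at this
  · intro h
    have := map_dvd f.symm h
    rwa [f.symm_apply_apply] at this

lemma Odd'.map {R R' : Type} [CommRing R] [CommRing R'] (f : R ≃+* R') {m δ : R} (h : Odd' m δ) :
    Odd' (f m) (f δ) := by
  refine ⟨?_, ?_, ?_⟩
  · intro x hx
    have h1 : f.symm x * f.symm x ∣ δ := by
      rw [← map_mul, dvd_symm]
      exact hx
    have h2 := (h.sf _ h1).map f
    rwa [f.apply_symm_apply] at h2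
  · intro π hπ h2 hm hd
    refine h.un (f.symm π) (prime_symm f hπ) ?_ ?_ ((dvd_symm f).2 hd)
    · rw [dvd_symm, map_ofNat]; exact h2
    · rw [dvd_symm]; exact hm
  · intro π m₁ hπ h2 hm hm₁
    rcases h.lo (f.symm π) (f.symm m₁) (prime_symm f hπ) (by rw [dvd_symm, map_ofNat]; exact h2)
      (by rw [← map_mul, ← hm, f.symm_apply_apply]) (by
        rw [dvd_symm, f.apply_symm_apply]; exact hm₁) with ⟨h3, h4⟩ | ⟨δ₁, h3, h4⟩
    · left
      refine ⟨fun h5 => h3 ((dvd_symm f).2 h5), ?_⟩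
      have := h4.map (f : R →+* R')
      simpa using this
    · right
      refine ⟨f δ₁, ?_, ?_⟩
      · rw [h3, map_mul, f.apply_symm_apply]
      · have := h4.map (f : R →+* R')
        simpa using this

lemma Sel.map {R R' : Type} [CommRing R] [CommRing R'] (f : R ≃+* R') {m ϖ δ : R}
    (h : Sel m ϖ δ) : Sel (f m) (f ϖ) (f δ) := by
  refine ⟨h.odd.map f, ?_⟩
  rcases h.st with h1 | h1
  · exact Or.inl (h1.map (f : R →+* R'))
  · right
    have := h1.map (f : R →+* R')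
    simpa using this

lemma Sel5.map {R R' : Type} [CommRing R] [CommRing R'] (f : R ≃+* R') {m ϖ ϖ' δ : R}
    (h : Sel5 m ϖ ϖ' δ) : Sel5 (f m) (f ϖ) (f ϖ') (f δ) := by
  refine ⟨h.odd.map f, ?_, ?_⟩
  · have := map_dvd f h.st
    simpa using this
  · intro h1
    apply h.ev
    have := map_dvd f.symm h1
    simpa using this

end Pool.Agent.L0h75.H1
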