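import Pool.Agent.L0h75.H1.Def
import Pool.Agent.R384.X.Main7

/-!
# H1: statements on cocycles
-/

set_option autoImplicit false

namespace Pool.Agent.L0h75.H1

open Pool.Agent.R384
open WeierstrassCurve Pool.Agent.Y676.IS
open scoped Classical
open Pool.Agent.Y715.Red Pool.Agent.Y715.Nr Pool.Agent.W237.RK
open Pool.Agent.Y715.Gi (QB KK GK i₀_mem gk_fix)
open Pool.Agent.Y715.Df (Cmp exists_cmp)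

/-- the two primes above two -/
def Two (ϖ ϖ' : OO) : Prop := (ϖ = om ∧ ϖ' = 1 - om) ∨ (ϖ = 1 - om ∧ ϖ' = om)

/-- C: the residual class of a cocycle -/
def S_C : Prop := ∀ (i₀ : QB) (hi : i₀ ^ 2 = i₀ - 2) (χ : GK i₀ →* ℤ_[2]ˣ) (m : OO) (r : QB),
  ChiD hi χ m r → Squarefree m → ∀ ϖ ϖ' : OO, Two ϖ ϖ' → ¬ Lsq ϖ m → ∀ c : GK i₀ → ℚ_[2],
    Coc χ c →
    (∀ (p : ℕ) [Fact p.Prime] (ι : QB →ₐ[ℚ] PadicAlgCl p), p ≠ 2 → CobOn χ (II ι) c) →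
    (∀ ι : QB →ₐ[ℚ] PadicAlgCl 2, ‖ι (em hi ϖ)‖ < 1 → CobOn χ (DD ι) c) →
    (¬ ∃ y : ℚ_[2], ∀ σ, c σ = (vl χ σ - 1) * y) →
    ∃ δ : OO, Sel m ϖ δ ∧ δ ≠ 1 ∧ δ ≠ m

/-- the characters modulo `8` up to sign -/
structure K8D (i₀ : QB) (κ κ' : GK i₀ →* ℤ_[2]ˣ) : Prop where
  a : ∀ (t : QB), t ^ 2 = -i₀ → ∀ σ : GK i₀,
    σ t = t ↔ ((8 : ℤ_[2]) ∣ (κ σ : ℤ_[2]) - 1 ∨ (8 : ℤ_[2]) ∣ (κ σ : ℤ_[2]) + 1)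
  b : ∀ (t : QB), t ^ 2 = -(1 - i₀) → ∀ σ : GK i₀,
    σ t = t ↔ ((8 : ℤ_[2]) ∣ (κ' σ : ℤ_[2]) - 1 ∨ (8 : ℤ_[2]) ∣ (κ' σ : ℤ_[2]) + 1)

/-- K8: the points of order `8`; `w` is not necessarily `i₀` -/
def S_K8 : Prop := ∀ (i₀ w m : QB) (h : WD w m)
  (fx : ∀ σ : GK i₀, Fx w m (rh σ)) (x : ℕ → (Cu (ca w m) (cb w m)).Point),
  Tow (eF h) (tA h) x → ∀ (κ' : GK i₀ →* ℤ_[2]ˣ), (∀ σ, ActsBy x (act h fx σ) (κ' σ)) →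
    ∀ (t : QB), t ^ 2 = -(1 - w) → ∀ σ : GK i₀,
      σ t = t ↔ ((8 : ℤ_[2]) ∣ (κ' σ : ℤ_[2]) - 1 ∨ (8 : ℤ_[2]) ∣ (κ' σ : ℤ_[2]) + 1)

/-- T5: local Kummer theory for the cyclotomic character modulo `8` twisted by the unramified
character with values `1`, `5` -/
def S_T5 : Prop := ∀ (ζ f s : PadicAlgCl 2) (c χ : Au 2 → ZMod 8), IsPrimitiveRoot ζ 8 →
  f ^ 2 = 5 → IsLocallyConstant c →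
  (∀ σ : Au 2, (σ f = f → σ ζ = ζ ^ (χ σ).val) ∧ (σ f = -f → σ ζ = ζ ^ (5 * χ σ).val)) →
  (∀ σ τ : Au 2, c (σ * τ) = c σ + χ σ * c τ) → s ≠ 0 →
  (∀ σ : Au 2, σ s = s ↔ (c σ).val % 2 = 0) → (∀ σ : Au 2, σ (s ^ 2) = s ^ 2) →
  ∃ k : ℤ, ‖s ^ 2‖ = (1 / 4 : ℝ) ^ k

/-- P5: the residual class of a cocycle, the number `m` being a square at the strict place -/
def S_P5 : Prop := S_T5 → ∀ (i₀ : QB) (hi : i₀ ^ 2 = i₀ - 2) (κ κ' : GK i₀ →* ℤ_[2]ˣ) (D P : OO)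
  (r I : QB), KD hi κ κ' D r I → K8D i₀ κ κ' → D = -(s7 * P) → (8 : OO) ∣ P - 5 →
  Squarefree D → ∀ (j : ℤ) (ϖ ϖ' m : OO),
  ((Even j ∧ ϖ = om ∧ ϖ' = 1 - om ∧ m = D) ∨ (Odd j ∧ ϖ = 1 - om ∧ ϖ' = om ∧ m = -D)) →
  ∀ c : GK i₀ → ℚ_[2], Coc (κ ^ j * κ' ^ (1 - j)) c →
    (∀ (p : ℕ) [Fact p.Prime] (ι : QB →ₐ[ℚ] PadicAlgCl p), p ≠ 2 →
      CobOn (κ ^ j * κ' ^ (1 - j)) (II ι) c) →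
    (∀ ι : QB →ₐ[ℚ] PadicAlgCl 2, ‖ι (em hi ϖ)‖ < 1 →
      CobOn (κ ^ j * κ' ^ (1 - j)) (DD ι) c) →
    (¬ ∃ y : ℚ_[2], ∀ σ, c σ = (vl (κ ^ j * κ' ^ (1 - j)) σ - 1) * y) →
    ∃ δ : OO, Sel5 m ϖ ϖ' δ ∧ δ ≠ 1 ∧ δ ≠ m

end Pool.Agent.L0h75.H1
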