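import Pool.Agent.L0h75.H1.Stm
import Pool.Agent.L0h75.H1.Stm2
import Pool.Agent.L0h23.ED.Rr

/-!
# H1: the two models of the ring of integers of `ℚ(√-7)`
-/

set_option autoImplicit false

namespace Pool.Agent.L0h75.H1

open Pool.Agent.R384 (OO om s7 em em_apply em_inj cj cjH cj_cj)
open Pool.Agent.Y698 (RR aR fR aR_sq cX cY)
open Pool.Agent.L0h23.ED (r8 r8_aR coR)

/-- the map to `RR` -/
noncomputable def toR : OO →+* RR := em (L := RR) aR_sq

lemma toR_apply (z : OO) : toR z = (z.re : RR) + (z.im : RR) * aR := em_apply aR_sq z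

lemma toR_inj : Function.Injective toR := by
  rw [injective_iff_map_eq_zero]
  intro z hz
  have hw : ((aR : RR) : ℂ) ^ 2 = (aR : ℂ) - 2 := by
    have := congrArg (fun x : RR => (x : ℂ)) aR_sq
    push_cast at this
    exact this
  refine em_inj hw ?_
  rw [em_apply]
  have h2 := congrArg (fun x : RR => (x : ℂ)) hz
  rw [toR_apply] at h2
  simpa using h2

lemma toR_surj : Function.Surjective toR := by
  intro x
  refine ⟨⟨cX x, cY x⟩, ?_⟩
  rw [toR_apply]
  exact (coR x).symm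

/-- the isomorphism -/
noncomputable def eqv : OO ≃+* RR := RingEquiv.ofBijective toR ⟨toR_inj, toR_surj⟩

lemma eqv_apply (z : OO) : eqv z = (z.re : RR) + (z.im : RR) * aR := toR_apply z

lemma eqv_om : eqv om = aR := by
  rw [eqv_apply]
  simp [om]

lemma eqv_s7 : eqv s7 = fR := by
  rw [eqv_apply]
  simp only [s7, fR]
  push_cast
  ring

lemma eqv_m (M : ℕ) : eqv (-(s7 * (M : OO))) = -fR * (M : RR) := by
  rw [map_neg, map_mul, eqv_s7, map_natCast]
  ring

/-- the conjugation -/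
noncomputable def cjE : OO ≃+* OO := RingEquiv.ofBijective cjH
  ⟨fun x y h => by
    have h1 : cj (cj x) = cj (cj y) := congrArg cj h
    rwa [cj_cj, cj_cj] at h1, fun x => ⟨cj x, cj_cj x⟩⟩

lemma cjE_apply (x : OO) : cjE x = cj x := rfl

lemma cjE_om : cjE om = 1 - om := by
  rw [cjE_apply]
  have h1 : (1 : OO).re = 1 := rfl
  have h2 : (1 : OO).im = 0 := rfl
  ext
  · simp [cj, om, h1]
  · simp [cj, om, h2]

lemma cjE_om' : cjE (1 - om) = om := by
  rw [map_sub, map_one, cjE_om, sub_sub_cancel]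

lemma cjE_s7 : cjE s7 = -s7 := by
  rw [cjE_apply]
  ext <;> simp [cj, s7]

lemma cjE_m (M : ℕ) : cjE (s7 * (M : OO)) = -(s7 * (M : OO)) := by
  rw [map_mul, cjE_s7, map_natCast, neg_mul]

lemma cjE_cjE (x : OO) : cjE (cjE x) = x := cj_cj x

/-- from the ring `RR` to the ring `OO` -/
lemma triv_om {M : ℕ} (h : ∀ δ : RR, Sel (-fR * (M : RR)) aR δ → δ = 1 ∨ δ = -fR * (M : RR))
    {δ : OO} (hδ : Sel (-(s7 * (M : OO))) om δ) : δ = 1 ∨ δ = -(s7 * (M : OO)) := by
  have h1 := hδ.map eqv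
  rw [eqv_m, eqv_om] at h1
  rcases h _ h1 with h2 | h2
  · left
    apply eqv.injective
    rw [h2, map_one]
  · right
    apply eqv.injective
    rw [h2, eqv_m]

/-- the conjugate -/
lemma triv_cj {M : ℕ} (h : ∀ δ : RR, Sel (-fR * (M : RR)) aR δ → δ = 1 ∨ δ = -fR * (M : RR))
    {δ : OO} (hδ : Sel (s7 * (M : OO)) (1 - om) δ) : δ = 1 ∨ δ = s7 * (M : OO) := by
  have h1 := hδ.map cjE
  rw [cjE_m, cjE_om'] at h1
  rcases triv_om h h1 with h2 | h2
  · left
    apply cjE.injective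
    rw [h2, map_one]
  · right
    apply cjE.injective
    rw [h2, cjE_m]

lemma triv5_om {M : ℕ}
    (h : ∀ δ : RR, Sel5 (-fR * (M : RR)) aR (1 - aR) δ → δ = 1 ∨ δ = -fR * (M : RR))
    {δ : OO} (hδ : Sel5 (-(s7 * (M : OO))) om (1 - om) δ) : δ = 1 ∨ δ = -(s7 * (M : OO)) := by
  have h1 := hδ.map eqv
  rw [eqv_m, eqv_om, map_sub, map_one, eqv_om] at h1
  rcases h _ h1 with h2 | h2
  · left
    apply eqv.injective
    rw [h2, map_one]
  · right
    apply eqv.injective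
    rw [h2, eqv_m]

lemma triv5_cj {M : ℕ}
    (h : ∀ δ : RR, Sel5 (-fR * (M : RR)) aR (1 - aR) δ → δ = 1 ∨ δ = -fR * (M : RR))
    {δ : OO} (hδ : Sel5 (s7 * (M : OO)) (1 - om) om δ) : δ = 1 ∨ δ = s7 * (M : OO) := by
  have h1 := hδ.map cjE
  rw [cjE_m, cjE_om', cjE_om] at h1
  rcases triv5_om h h1 with h2 | h2
  · left
    apply cjE.injective
    rw [h2, map_one]
  · right
    apply cjE.injective
    rw [h2, cjE_m]

/-- the number `m` is not a square at the strict place -/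
lemma not_lsq {M : ℕ} (hsf : Squarefree M) (h5 : M % 8 ≠ 5) : ¬ Lsq aR (-fR * (M : RR)) := by
  have h4 : M % 4 ≠ 0 := by
    intro h4
    have h5 : 2 * 2 ∣ M := by omega
    exact absurd (hsf 2 h5) (by rw [Nat.isUnit_iff]; norm_num)
  have hm : r8 (-fR * (M : RR)) = 5 * ((M % 8 : ℕ) : ZMod 8) := by
    rw [map_mul, map_natCast, map_neg, fR, map_sub, map_mul, r8_aR, map_ofNat, map_one]
    have e : -(2 * 6 - 1 : ZMod 8) = 5 := by decide
    rw [e, ZMod.natCast_mod]
  rintro ⟨y, hy, h3⟩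
  have hr : r8 y = 1 := by
    obtain ⟨t, ht⟩ := h3
    have h6 := congrArg r8 ht
    rw [map_sub, map_one, map_mul, map_pow, r8_aR] at h6
    have e : (6 : ZMod 8) ^ 3 = 0 := by decide
    rw [e, zero_mul] at h6
    exact sub_eq_zero.1 h6
  have h8 : M % 8 < 8 := Nat.mod_lt _ (by norm_num)
  have h44 : M % 8 % 4 ≠ 0 := by omega
  rcases hy with hy | hy
  · have h6 : (5 : ZMod 8) * ((M % 8 : ℕ) : ZMod 8) = 1 := by rw [← hm, hy, hr]
    revert h6 h5 h44
    generalize M % 8 = a at *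
    interval_cases a <;> decide
  · have h6 : (5 : ZMod 8) * ((M % 8 : ℕ) : ZMod 8) = 4 := by
      rw [← hm, hy, map_mul, map_pow, r8_aR, hr]
      decide
    revert h6 h5 h44
    generalize M % 8 = a at *
    interval_cases a <;> decide

lemma not_lsq_om {M : ℕ} (hsf : Squarefree M) (h5 : M % 8 ≠ 5) :
    ¬ Lsq om (-(s7 * (M : OO))) := by
  intro h
  have h1 := h.map (eqv : OO →+* RR)
  rw [RingEquiv.coe_toRingHom, eqv_m, eqv_om] at h1
  exact not_lsq hsf h5 h1

lemma not_lsq_cj {M : ℕ} (hsf : Squarefree M) (h5 : M % 8 ≠ 5) :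
    ¬ Lsq (1 - om) (s7 * (M : OO)) := by
  intro h
  have h1 := h.map (cjE : OO →+* OO)
  rw [RingEquiv.coe_toRingHom, cjE_m, cjE_om'] at h1
  exact not_lsq_om hsf h5 h1

end Pool.Agent.L0h75.H1
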