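import Pool.Agent.L0h75.H1.Van

/-!
# H1: the Selmer groups of residual classes for the positive squarefree numbers prime to `7`
-/

set_option autoImplicit false

attribute [-instance] DivisionRing.toRatAlgebra

namespace Pool.Agent.L0h75.H1

open Pool.Agent.Y698 hiding s7
open Pool.Agent.Y698.SG Pool.Agent.L0h4.TW
open Pool.Agent.L0h74.EV (QPw CritA NSA qpw_of critA_iff)
open Pool.Agent.L0h1.EV (TT tt_iff)
open Pool.Agent.L0h23.ED (S_R2)
open Pool.Agent.R384 (OO om s7)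

/-- the residual statements for `m = ± √-7 M` -/
structure SelT (M : ℕ) : Prop where
  sf : Squarefree (-(s7 * (M : OO)))
  sf' : Squarefree (s7 * (M : OO))
  ns : ¬ Lsq om (-(s7 * (M : OO)))
  ns' : ¬ Lsq (1 - om) (s7 * (M : OO))
  tr : ∀ δ : OO, Sel (-(s7 * (M : OO))) om δ → δ = 1 ∨ δ = -(s7 * (M : OO))
  tr' : ∀ δ : OO, Sel (s7 * (M : OO)) (1 - om) δ → δ = 1 ∨ δ = s7 * (M : OO)

lemma selT_of {M : ℕ} (hsf : Squarefree M) (h5 : M % 8 ≠ 5)
    (hR : Squarefree (-fR * (M : RR)))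
    (h : ∀ δ : RR, Sel (-fR * (M : RR)) aR δ → δ = 1 ∨ δ = -fR * (M : RR)) : SelT M := by
  obtain ⟨s1, s2⟩ := sf_om hR
  exact ⟨s1, s2, not_lsq_om hsf h5, not_lsq_cj hsf h5, fun δ hδ => triv_om h hδ,
    fun δ hδ => triv_cj h hδ⟩

/-- the modules without the residue class `5` modulo `8` -/
structure HB : Prop where
  fac : S_FAC
  eqj : S_EQJ
  eq7 : S_EQ7
  sum : S_SUM
  a3 : S_A3
  ae : S_AE
  a1 : S_A1

lemma HA.hb (H : HA) : HB := ⟨H.fac, H.eqj, H.eq7, H.sum, H.a3, H.ae, H.a1⟩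

/-- **the residual statements** -/
theorem sel_B (H : HB) {M : ℕ} (hsf : Squarefree M) (h7 : ¬ 7 ∣ M) (h5 : M % 8 ≠ 5)
    (hT : TT M) : SelT M := by
  obtain ⟨w, hw⟩ := Pool.Agent.L0h4.TA.exists_w
  have hq := qpw_of hw
  have hns := (critA_iff hq hsf h7).1 ((tt_iff hq hsf h7).1 hT)
  have r2 : S_R2 := Pool.Agent.L0h61.EV.r2
  rcases hns with ⟨h4, hns⟩ | ⟨h4, hns⟩ | ⟨h2, hns⟩
  · have hd := hq.dt (D := M) (by omega) h7
    have hP := hq.prod hsf
    have hR := (sf_R hd).1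
    rw [← hP] at hR
    have h := H.a1 r2 H.fac H.eqj H.eq7 H.sum _ _ _ hd (by rw [← hP]; omega) hns
    rw [← hP] at h
    exact selT_of hsf h5 hR h
  · have hd := hq.dt (D := M) (by omega) h7
    have hP := hq.prod hsf
    have hR := (sf_R hd).1
    rw [← hP] at hR
    have h := H.a3 r2 H.fac H.eqj H.eq7 H.sum _ _ _ hd (by rw [← hP]; exact h4)
      (by rw [← hP]; exact hns)
    rw [← hP] at h
    exact selT_of hsf (by omega) hR h
  · have eD : M = 2 * (M / 2) := by omega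
    have hsf2 : Squarefree (M / 2) := by
      have := hsf
      rw [eD] at this
      exact Squarefree.squarefree_of_dvd (Dvd.intro_left _ rfl) this
    have h7' : ¬ 7 ∣ M / 2 := fun h' => h7 (by rw [eD]; exact Dvd.dvd.mul_left h' 2)
    have hodd : M / 2 % 2 = 1 := by
      by_contra hcon
      have h5 : 2 * 2 ∣ M := by omega
      exact absurd (hsf 2 h5) (by rw [Nat.isUnit_iff]; norm_num)
    have hd := hq.dt (D := M / 2) hodd h7'
    have hP := hq.prod hsf2
    have hR := (sf_R hd).2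
    rw [← hP, ← eD] at hR
    have h := H.ae r2 H.fac H.eqj H.eq7 H.sum _ _ _ hd (by rw [← hP]; exact hns)
    rw [← hP, ← eD] at h
    exact selT_of hsf (by omega) hR h

theorem sel_M (H : HA) {M : ℕ} (hsf : Squarefree M) (h7 : ¬ 7 ∣ M) (h5 : M % 8 ≠ 5)
    (hT : TT M) : SelT M := sel_B H.hb hsf h7 h5 hT

end Pool.Agent.L0h75.H1
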