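import Pool.Agent.L0h75.H1.Rg
import Pool.Agent.L0h23.ED.Sla

/-!
# H1: the number `m` is squarefree
-/

set_option autoImplicit false

attribute [-instance] DivisionRing.toRatAlgebra

namespace Pool.Agent.L0h75.H1

open Pool.Agent.Y698 hiding s7
open Pool.Agent.Y698.SG Pool.Agent.L0h4.TW
open Pool.Agent.L0h23.ED (prod_sgn' prime_aR prime_bR)
open Pool.Agent.R384 (OO om s7)

lemma sf_prod {Q S : Finset ℕ} {ϖ : ℕ → RR} (h : Dt Q S ϖ) :
    Squarefree (-fR * ∏ i ∈ ix Q S, pfx Q ϖ i) ∧ IsCoprime 2 (-fR * ∏ i ∈ ix Q S, pfx Q ϖ i) := by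
  have e : -fR * ∏ i ∈ ix Q S, pfx Q ϖ i = ∏ i ∈ insert (7, false) (ix Q S), pf7 Q ϖ i := by
    rw [Finset.prod_insert h.ix7, pf7_o, Finset.prod_congr rfl (fun i hi => h.pf hi)]
  rw [e]
  constructor
  · refine Finset.squarefree_prod_of_pairwise_isCoprime (fun i hi j hj hij => ?_)
      fun i hi => (h.fx7.pd i hi).pr.squarefree
    rw [Function.onFun]
    exact (cop_of (h.fx7.pd i hi).pr (h.fx7.ne j hj i hi hij.symm)).isRelPrime
  · exact IsCoprime.prod_right fun i hi => (h.fx7.pd i hi).odd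

lemma sf_two : Squarefree (2 : RR) := by
  have e : (2 : RR) = aR * (1 - aR) := Pool.Agent.L0h23.ED.abR.symm
  rw [e, squarefree_mul_iff]
  refine ⟨?_, prime_aR.squarefree, prime_bR.squarefree⟩
  exact IsCoprime.isRelPrime ⟨1, 1, by ring⟩

lemma sf_R {Q S : Finset ℕ} {ϖ : ℕ → RR} (h : Dt Q S ϖ) :
    Squarefree (-fR * ((∏ p ∈ Q ∪ S, p : ℕ) : RR)) ∧
    Squarefree (-fR * ((2 * ∏ p ∈ Q ∪ S, p : ℕ) : RR)) := by
  obtain ⟨h1, h2⟩ := sf_prod h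
  have key : ∀ u : RR, (u = 1 ∨ u = -1) → ((∏ p ∈ Q ∪ S, p : ℕ) : RR) = u * ∏ i ∈ ix Q S, pfx Q ϖ i →
      Squarefree (-fR * ((∏ p ∈ Q ∪ S, p : ℕ) : RR)) ∧
      Squarefree (-fR * ((2 * ∏ p ∈ Q ∪ S, p : ℕ) : RR)) := by
    intro u hu e
    have hun : IsUnit u := by
      rcases hu with rfl | rfl
      · exact isUnit_one
      · exact isUnit_one.neg
    have h3 : Squarefree (-fR * ((∏ p ∈ Q ∪ S, p : ℕ) : RR)) := by
      have e1 : -fR * ((∏ p ∈ Q ∪ S, p : ℕ) : RR) = u * (-fR * ∏ i ∈ ix Q S, pfx Q ϖ i) := by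
        rw [e]; ring
      rw [e1]
      exact (squarefree_mul_iff).2 ⟨hun.isRelPrime_left, hun.squarefree, h1⟩
    refine ⟨h3, ?_⟩
    have e2 : -fR * ((2 * ∏ p ∈ Q ∪ S, p : ℕ) : RR) = u * (2 * (-fR * ∏ i ∈ ix Q S, pfx Q ϖ i)) := by
      push_cast at e ⊢
      rw [e]; ring
    rw [e2]
    exact (squarefree_mul_iff).2 ⟨hun.isRelPrime_left, hun.squarefree,
      (squarefree_mul_iff).2 ⟨h2.isRelPrime, sf_two, h1⟩⟩
  rcases prod_sgn' h with ⟨-, e⟩ | ⟨-, e⟩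
  · exact key 1 (Or.inl rfl) (by rw [e, one_mul])
  · exact key (-1) (Or.inr rfl) e

lemma sf_om {M : ℕ} (h : Squarefree (-fR * (M : RR))) : Squarefree (-(s7 * (M : OO))) ∧
    Squarefree (s7 * (M : OO)) := by
  have h1 : Squarefree (-(s7 * (M : OO))) := by
    intro x hx
    have h2 := map_dvd eqv hx
    rw [map_mul, eqv_m] at h2
    exact (MulEquiv.isUnit_map eqv).1 (h _ h2)
  refine ⟨h1, fun x hx => h1 x ?_⟩
  rwa [dvd_neg]

end Pool.Agent.L0h75.H1
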